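import Pool.Agent.FHQ.StmtsP

/-!
# Squad FHQ, row UBX: the condition `Theta` is a finite union of boxes
-/

open scoped BigOperators

noncomputable section

namespace Pool.Agent.FHQ.H95

open Pool.Agent.FHQ

lemma ub_congr {r : ℕ} {C C' : Cond r} (h : ∀ p a g, C p a g ↔ C' p a g) (hC : UB r C) :
    UB r C' := by
  obtain ⟨L, hL⟩ := hC
  exact ⟨L, fun p a g => (h p a g).symm.trans (hL p a g)⟩

lemma ub_false (r : ℕ) : UB r (fun _ _ _ => False) := ⟨[], by simp⟩

lemma ub_ex (hUbo : UboStmt) {r : ℕ} {ι : Type*} (s : Finset ι) (C : ι → Cond r)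
    (h : ∀ i ∈ s, UB r (C i)) : UB r (fun p a g => ∃ i ∈ s, C i p a g) := by
  classical
  induction s using Finset.induction_on with
  | empty => exact ub_congr (by simp) (ub_false r)
  | insert i s hi ih =>
    have h1 := ih (fun j hj => h j (Finset.mem_insert_of_mem hj))
    have h2 := h i (Finset.mem_insert_self i s)
    refine ub_congr ?_ ((hUbo r _ _ h2 h1).1)
    intro p a g
    simp

lemma ub_not (hUbo : UboStmt) {r : ℕ} {C : Cond r} (h : UB r C) :
    UB r (fun p a g => ¬ C p a g) := (hUbo r C C h h).2.2.1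

lemma ub_and (hUbo : UboStmt) {r : ℕ} {C C' : Cond r} (h : UB r C) (h' : UB r C') :
    UB r (fun p a g => C p a g ∧ C' p a g) := (hUbo r C C' h h').2.1

lemma ub_or (hUbo : UboStmt) {r : ℕ} {C C' : Cond r} (h : UB r C) (h' : UB r C') :
    UB r (fun p a g => C p a g ∨ C' p a g) := (hUbo r C C' h h').1

lemma ub_all (hUbo : UboStmt) {r : ℕ} {ι : Type*} (s : Finset ι) (C : ι → Cond r)
    (h : ∀ i ∈ s, UB r (C i)) : UB r (fun p a g => ∀ i ∈ s, C i p a g) := by
  refine ub_congr ?_ (ub_not hUbo (ub_ex hUbo s (fun i p a g => ¬ C i p a g)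
    (fun i hi => ub_not hUbo (h i hi))))
  intro p a g
  push Not
  rfl

lemma ub_const (hUbo : UboStmt) {r : ℕ} (P : Prop) : UB r (fun _ _ _ => P) := by
  by_cases hP : P
  · exact ub_congr (by simp [hP]) (ub_not hUbo (ub_false r))
  · exact ub_congr (by simp [hP]) (ub_false r)

lemma ub_poly (hUbo : UboStmt) {r : ℕ} (P : MvPolynomial (Fin r) ℤ) :
    UB r (fun _ a _ => MvPolynomial.aeval a P = 0) :=
  (hUbo r _ _ (ub_false r) (ub_false r)).2.2.2.1 _ (RD.eq P)

lemma ub_le (hUbo : UboStmt) {r : ℕ} (c : Fin r → ℤ) (b : ℤ) :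
    UB r (fun _ _ g => 0 ≤ ∑ i, c i * g i + b) :=
  (hUbo r _ _ (ub_false r) (ub_false r)).2.2.2.2 _ (PD.le c b)

/-- coefficients of the linear form `g (i) + k * g (j)` -/
def lf {m : ℕ} (i j : Fin m) (k : ℤ) : Fin m → ℤ :=
  fun x => (if x = i then 1 else 0) + (if x = j then k else 0)

lemma lf_sum {m : ℕ} (i j : Fin m) (k : ℤ) (g : Fin m → ℤ) :
    ∑ x, lf i j k x * g x = g i + k * g j := by
  simp [lf, add_mul, Finset.sum_add_distrib, ite_mul]

lemma ub_arg (hUbo : UboStmt) {m D : ℕ} (e : Fin D → Fin m) (k : Fin D) :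
    UB (m + 1) (fun p a g => Arg (fun k => a (e k).succ) (fun k => g (e k).succ) (g 0) k) := by
  have h1 : UB (m + 1) (fun p a g => ¬ (a (e k).succ = 0)) := by
    refine ub_congr ?_ (ub_not hUbo (ub_poly hUbo (MvPolynomial.X (e k).succ)))
    intro p a g
    simp
  have h2 : ∀ l : Fin D, UB (m + 1) (fun p a g => a (e l).succ = 0 ∨
      g (e k).succ + (k : ℕ) * g 0 ≤ g (e l).succ + (l : ℕ) * g 0) := by
    intro l
    refine ub_or hUbo ?_ ?_
    · refine ub_congr ?_ (ub_poly hUbo (MvPolynomial.X (e l).succ))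
      intro p a g
      simp
    · refine ub_congr ?_ (ub_le hUbo (fun x => lf (e l).succ 0 (l : ℕ) x -
        lf (e k).succ 0 (k : ℕ) x) 0)
      intro p a g
      have : ∑ x, (lf (e l).succ 0 ((l : ℕ) : ℤ) x - lf (e k).succ 0 ((k : ℕ) : ℤ) x) * g x
          = (g (e l).succ + (l : ℕ) * g 0) - (g (e k).succ + (k : ℕ) * g 0) := by
        simp only [sub_mul, Finset.sum_sub_distrib, lf_sum]
      rw [this, add_zero, sub_nonneg]
  refine ub_congr ?_ (ub_and hUbo h1 (ub_all hUbo Finset.univ _ (fun l _ => h2 l)))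
  intro p a g
  unfold Arg
  constructor
  · rintro ⟨ha, hb⟩
    refine ⟨ha, fun l hl => ?_⟩
    exact (hb l (Finset.mem_univ _)).resolve_left hl
  · rintro ⟨ha, hb⟩
    refine ⟨ha, fun l _ => ?_⟩
    by_cases hl : a (e l).succ = 0
    · exact Or.inl hl
    · exact Or.inr (hb l hl)

lemma mu_eq {p D : ℕ} (a : Fin D → ZMod p) (s : Fin D → ℤ) (g : ℤ) (k : Fin D)
    (hk : Arg a s g k) : Mu a s g = s k + (k : ℕ) * g := by
  unfold Mu
  have h : ∃ k, Arg a s g k := ⟨k, hk⟩
  rw [dif_pos h]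
  have h2 := h.choose_spec
  exact le_antisymm (h2.2 k hk.1) (hk.2 _ h2.1)

lemma mu_eq0 {p D : ℕ} (a : Fin D → ZMod p) (s : Fin D → ℤ) (g : ℤ)
    (hk : ∀ k, ¬ Arg a s g k) : Mu a s g = 0 := by
  unfold Mu
  rw [dif_neg]
  rintro ⟨k, h⟩
  exact hk k h

/-- the polynomial `Sp` for a given set of argument indices -/
def spP {m D : ℕ} (e : Fin D → Fin m) (J : Finset (Fin D)) : MvPolynomial (Fin (m + 1)) ℤ :=
  ∑ k ∈ J, MvPolynomial.X (e k).succ * MvPolynomial.X 0 ^ (k : ℕ)

/-- the polynomial `Sd` for a given set of argument indices -/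
def sdP {m D : ℕ} (e : Fin D → Fin m) (J : Finset (Fin D)) : MvPolynomial (Fin (m + 1)) ℤ :=
  ∑ k ∈ J, MvPolynomial.X (e k).succ * (((k : ℕ) : MvPolynomial (Fin (m + 1)) ℤ) *
    MvPolynomial.X 0 ^ ((k : ℕ) - 1))

open Classical in
lemma sp_eval {m D : ℕ} (e : Fin D → Fin m) (J : Finset (Fin D)) (p : ℕ)
    (a : Fin (m + 1) → ZMod p) (s : Fin D → ℤ) (g : ℤ)
    (hJ : ∀ k, k ∈ J ↔ Arg (fun k => a (e k).succ) s g k) :
    Sp (fun k => a (e k).succ) s g (a 0) = MvPolynomial.aeval a (spP e J) := by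
  unfold Sp spP
  rw [map_sum, ← Finset.sum_filter]
  have : Finset.univ.filter (fun k => Arg (fun k => a (e k).succ) s g k) = J := by
    ext k
    simp [hJ]
  rw [this]
  refine Finset.sum_congr rfl fun k _ => ?_
  simp

open Classical in
lemma sd_eval {m D : ℕ} (e : Fin D → Fin m) (J : Finset (Fin D)) (p : ℕ)
    (a : Fin (m + 1) → ZMod p) (s : Fin D → ℤ) (g : ℤ)
    (hJ : ∀ k, k ∈ J ↔ Arg (fun k => a (e k).succ) s g k) :
    Sd (fun k => a (e k).succ) s g (a 0) = MvPolynomial.aeval a (sdP e J) := by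
  unfold Sd sdP
  rw [map_sum, ← Finset.sum_filter]
  have : Finset.univ.filter (fun k => Arg (fun k => a (e k).succ) s g k) = J := by
    ext k
    simp [hJ]
  rw [this]
  refine Finset.sum_congr rfl fun k _ => ?_
  simp

open Classical in
/-- the coefficients of the linear form `Mu` -/
def muC {m D : ℕ} (e : Fin D → Fin m) (J : Finset (Fin D)) : Fin (m + 1) → ℤ :=
  if h : J.Nonempty then lf (e h.choose).succ 0 ((h.choose : ℕ) : ℤ) else 0

open Classical in
lemma mu_eval {m D : ℕ} (e : Fin D → Fin m) (J : Finset (Fin D)) (p : ℕ)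
    (a : Fin (m + 1) → ZMod p) (g : Fin (m + 1) → ℤ)
    (hJ : ∀ k, k ∈ J ↔ Arg (fun k => a (e k).succ) (fun k => g (e k).succ) (g 0) k) :
    Mu (fun k => a (e k).succ) (fun k => g (e k).succ) (g 0) = ∑ j, muC e J j * g j + 0 := by
  unfold muC
  by_cases h : J.Nonempty
  · rw [dif_pos h]
    rw [mu_eq _ _ _ h.choose ((hJ _).1 h.choose_spec), lf_sum, add_zero]
  · rw [dif_neg h, mu_eq0]
    · simp
    · intro k hk
      exact h ⟨k, (hJ k).2 hk⟩

theorem ubx (hUbo : UboStmt) (hUbs : UbsStmt) (hUbe : UbeStmt) : UbxStmt := by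
  classical
  intro r D G C hC m e
  -- the pattern
  have hpat : ∀ J : Fin r → Finset (Fin D), UB (m + 1) (fun p a g => ∀ l ∈ (Finset.univ : Finset (Fin r)),
      ∀ k ∈ (Finset.univ : Finset (Fin D)), (k ∈ J l ↔ Arg (fun k => a (e (l, k)).succ)
        (fun k => g (e (l, k)).succ) (g 0) k)) := by
    intro J
    refine ub_all hUbo _ _ fun l _ => ub_all hUbo _ _ fun k _ => ?_
    by_cases hk : k ∈ J l
    · refine ub_congr ?_ (ub_arg hUbo (fun k => e (l, k)) k)
      intro p a g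
      simp [hk]
    · refine ub_congr ?_ (ub_not hUbo (ub_arg hUbo (fun k => e (l, k)) k))
      intro p a g
      simp [hk]
  have hG : ∀ J : Fin r → Finset (Fin D), UB (m + 1) (fun p a g => ∀ l ∈ G,
      (MvPolynomial.aeval a (spP (fun k => e (l, k)) (J l)) = 0 ∧
        ¬ MvPolynomial.aeval a (sdP (fun k => e (l, k)) (J l)) = 0)) := by
    intro J
    exact ub_all hUbo _ _ fun l _ => ub_and hUbo (ub_poly hUbo _) (ub_not hUbo (ub_poly hUbo _))
  have hN : ∀ J : Fin r → Finset (Fin D), UB (m + 1) (fun p a g => ∀ l ∈ Gᶜ,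
      ((∀ k ∈ (Finset.univ : Finset (Fin D)),
        MvPolynomial.aeval a (MvPolynomial.X (e (l, k)).succ : MvPolynomial (Fin (m + 1)) ℤ) = 0) ∨
        ¬ MvPolynomial.aeval a (spP (fun k => e (l, k)) (J l)) = 0)) := by
    intro J
    exact ub_all hUbo _ _ fun l _ => ub_or hUbo (ub_all hUbo _ _ fun k _ => ub_poly hUbo _)
      (ub_not hUbo (ub_poly hUbo _))
  have hCC : ∀ J : Fin r → Finset (Fin D), UB (m + 1) (fun p a g =>
      C p (fun l => MvPolynomial.aeval a (spP (fun k => e (l, k)) (J l)))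
        (fun l => ∑ j, muC (fun k => e (l, k)) (J l) j * g j + 0)) := by
    intro J
    exact hUbs r (m + 1) C hC (fun l => spP (fun k => e (l, k)) (J l))
      (fun l => muC (fun k => e (l, k)) (J l)) (fun _ => 0)
  have h0 : UB (m + 1) (fun p a g => ¬ MvPolynomial.aeval a (MvPolynomial.X 0 :
      MvPolynomial (Fin (m + 1)) ℤ) = 0) := ub_not hUbo (ub_poly hUbo _)
  have hall := ub_ex hUbo (Finset.univ : Finset (Fin r → Finset (Fin D))) _
    (fun J _ => ub_and hUbo (hpat J) (ub_and hUbo h0 (ub_and hUbo (hG J)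
      (ub_and hUbo (hN J) (hCC J)))))
  refine ub_congr ?_ (hUbe m _ hall)
  intro p a s
  unfold Theta
  refine exists_congr fun z => exists_congr fun g => ?_
  constructor
  · rintro ⟨J, -, hJ, hz, h1, h2, h3⟩
    have hJ' : ∀ l k, k ∈ J l ↔ Arg (fun k => (Fin.cons z a : Fin (m + 1) → ZMod p) (e (l, k)).succ)
        (fun k => (Fin.cons g s : Fin (m + 1) → ℤ) (e (l, k)).succ)
        ((Fin.cons g s : Fin (m + 1) → ℤ) 0) k :=
      fun l k => hJ l (Finset.mem_univ _) k (Finset.mem_univ _)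
    have hsp : ∀ l, Sp (fun k => a (e (l, k))) (fun k => s (e (l, k))) g z =
        MvPolynomial.aeval (Fin.cons z a : Fin (m + 1) → ZMod p) (spP (fun k => e (l, k)) (J l)) :=
      fun l => sp_eval (fun k => e (l, k)) (J l) p (Fin.cons z a) _ g (hJ' l)
    have hsd : ∀ l, Sd (fun k => a (e (l, k))) (fun k => s (e (l, k))) g z =
        MvPolynomial.aeval (Fin.cons z a : Fin (m + 1) → ZMod p) (sdP (fun k => e (l, k)) (J l)) :=
      fun l => sd_eval (fun k => e (l, k)) (J l) p (Fin.cons z a) _ g (hJ' l)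
    have hmu : ∀ l, Mu (fun k => a (e (l, k))) (fun k => s (e (l, k))) g =
        ∑ j, muC (fun k => e (l, k)) (J l) j * (Fin.cons g s : Fin (m + 1) → ℤ) j + 0 :=
      fun l => mu_eval (fun k => e (l, k)) (J l) p (Fin.cons z a) (Fin.cons g s) (hJ' l)
    refine ⟨by simpa using hz, ?_, ?_, ?_⟩
    · intro l hl
      rw [hsp, hsd]
      exact h1 l hl
    · intro l hl
      rw [hsp]
      refine (h2 l (by simpa using hl)).imp ?_ (fun h => h)
      intro h k
      simpa using h k (Finset.mem_univ _)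
    · simp only [hsp, hmu]
      exact h3
  · rintro ⟨hz, h1, h2, h3⟩
    let J : Fin r → Finset (Fin D) := fun l => Finset.univ.filter
      (fun k => Arg (fun k => a (e (l, k))) (fun k => s (e (l, k))) g k)
    have hJ' : ∀ l k, k ∈ J l ↔ Arg (fun k => (Fin.cons z a : Fin (m + 1) → ZMod p) (e (l, k)).succ)
        (fun k => (Fin.cons g s : Fin (m + 1) → ℤ) (e (l, k)).succ)
        ((Fin.cons g s : Fin (m + 1) → ℤ) 0) k := by
      intro l k
      simp [J]
    have hsp : ∀ l, Sp (fun k => a (e (l, k))) (fun k => s (e (l, k))) g z =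
        MvPolynomial.aeval (Fin.cons z a : Fin (m + 1) → ZMod p) (spP (fun k => e (l, k)) (J l)) :=
      fun l => sp_eval (fun k => e (l, k)) (J l) p (Fin.cons z a) _ g (hJ' l)
    have hsd : ∀ l, Sd (fun k => a (e (l, k))) (fun k => s (e (l, k))) g z =
        MvPolynomial.aeval (Fin.cons z a : Fin (m + 1) → ZMod p) (sdP (fun k => e (l, k)) (J l)) :=
      fun l => sd_eval (fun k => e (l, k)) (J l) p (Fin.cons z a) _ g (hJ' l)
    have hmu : ∀ l, Mu (fun k => a (e (l, k))) (fun k => s (e (l, k))) g =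
        ∑ j, muC (fun k => e (l, k)) (J l) j * (Fin.cons g s : Fin (m + 1) → ℤ) j + 0 :=
      fun l => mu_eval (fun k => e (l, k)) (J l) p (Fin.cons z a) (Fin.cons g s) (hJ' l)
    refine ⟨J, Finset.mem_univ _, fun l _ k _ => hJ' l k, by simpa using hz, ?_, ?_, ?_⟩
    · intro l hl
      rw [← hsp, ← hsd]
      exact h1 l hl
    · intro l hl
      rw [← hsp]
      refine (h2 l (by simpa using hl)).imp ?_ (fun h => h)
      intro h k _
      simpa using h k
    · simp only [← hsp, ← hmu]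
      exact h3

end Pool.Agent.FHQ.H95
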